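import Pool.Agent.T6.H98.WO.Fix

set_option autoImplicit false

/-!
# The irreducible curves which an effective class meets negatively: equal multiplicities
-/

namespace Pool.Agent.T6.H98.WO

open MvPolynomial Pool.Agent.W609 Pool.Agent.W609.CR Pool.Agent.TH167 Pool.Agent.TH167.SH
open Pool.Agent.TH442.NF (cls refl Step refl_cls cls_inj NefAt)
open Pool.Agent.R355.NegOrb

variable {s : ℕ} {P : Fin s → Fin 2 → ℂ} {d : ℕ} {m : Fin s → ℕ} {x : ℤ × (Fin s → ℤ)}

theorem fix_many (hP : AlgebraicIndependent ℚ (fun ij : Fin s × Fin 2 => P ij.1 ij.2))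
    (hD : Eff P d m) (hx : Orb P x) (hneg : dot x (cls d m) < 0) {ι : Type} [DecidableEq ι]
    (t : Finset ι) (a : ι → ℤ × (Fin s → ℤ)) (ha : ∀ i ∈ t, Root (a i))
    (haD : ∀ i ∈ t, dot (a i) (cls d m) = 0)
    (hab : ∀ i ∈ t, ∀ j ∈ t, i ≠ j → dot (a i) (a j) = -1) {δ : ℤ}
    (hδ : ∀ i ∈ t, dot x (a i) = δ) : (t.card : ℤ) * δ ^ 2 < (t.card + 1) * (- dot x x) := by
  classical
  by_contra hcon
  push Not at hcon
  have hc : ∀ z, Orb P z → ∀ l, 0 ≤ z.2 l := by
    rintro z ⟨e, u, rfl, -⟩ l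
    exact Int.natCast_nonneg _
  obtain ⟨y, hy⟩ : ∃ y : Option ι → ℤ × (Fin s → ℤ), y = fun o => o.elim x fun i => sr (a i) x :=
    ⟨_, rfl⟩
  have hy0 : y none = x := by rw [hy]; rfl
  have hy1 : ∀ i, y (some i) = sr (a i) x := fun i => by rw [hy]; rfl
  have hyO : ∀ o ∈ Finset.insertNone t, Orb P (y o) := by
    intro o ho
    cases o with
    | none => rw [hy0]; exact hx
    | some i =>
      rw [hy1]
      exact hx.sr hP (ha i (Finset.some_mem_insertNone.1 ho))
  have hsame : ∀ i ∈ t, dot (sr (a i) x) (sr (a i) x) = dot x x := fun i hi =>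
    dot_sr_sr (ha i hi).sq _ _
  have hx1 : ∀ i ∈ t, dot x (sr (a i) x) = dot x x + δ ^ 2 := by
    intro i hi
    rw [dot_sr, hδ i hi]
    ring
  have hdiff : ∀ i ∈ t, ∀ j ∈ t, i ≠ j → dot (sr (a i) x) (sr (a j) x) = dot x x + δ ^ 2 := by
    intro i hi j hj hij
    rw [dot_sr, sr_dot, sr_dot, hδ i hi, hδ j hj, hab i hi j hj hij, dot_comm (a i) x, hδ i hi]
    ring
  have h := sum_eff (inj_of_alg hP) (Finset.insertNone t) y (fun o ho => (hyO o ho).cur) 0
    (fun l => by
      rw [Prod.snd_sum, Finset.sum_apply]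
      simp only [Pi.zero_apply, Nat.cast_zero, sub_zero]
      exact Finset.sum_nonneg fun o ho => hc _ (hyO o ho) l) (fun o ho => by
      rw [dot_sum, Finset.sum_insertNone]
      simp only [Pi.zero_apply, Nat.cast_zero, zero_mul, Finset.sum_const_zero, add_zero]
      rw [hy0]
      cases o with
      | none =>
        rw [hy0, Finset.sum_congr rfl fun i hi => show dot (y (some i)) x = dot x x + δ ^ 2 by
          rw [hy1, dot_comm, hx1 i hi], Finset.sum_const, nsmul_eq_mul]
        nlinarith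
      | some j =>
        have hj := Finset.some_mem_insertNone.1 ho
        rw [hy1, hx1 j hj, ← Finset.add_sum_erase t _ hj, hy1, hsame j hj,
          Finset.sum_congr rfl fun i hi => show dot (y (some i)) (sr (a j) x) =
            dot x x + δ ^ 2 by
              rw [hy1, hdiff i (Finset.mem_of_mem_erase hi) j hj (Finset.ne_of_mem_erase hi)],
          Finset.sum_const, nsmul_eq_mul, Finset.card_erase_of_mem hj]
        have hpos : 1 ≤ t.card := Finset.card_pos.2 ⟨j, hj⟩
        rw [Nat.cast_sub hpos]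
        push_cast
        nlinarith) hD
  rw [dot_sum, Finset.sum_insertNone] at h
  simp only [Pi.zero_apply, Nat.cast_zero, zero_mul, Finset.sum_const_zero, add_zero] at h
  rw [hy0, Finset.sum_congr rfl fun i hi => show dot (y (some i)) (cls d m) = dot x (cls d m) by
    rw [hy1, sr_dot, haD i hi, mul_zero, add_zero], Finset.sum_const, nsmul_eq_mul] at h
  have h0 : (0 : ℤ) ≤ (t.card : ℤ) := Int.natCast_nonneg _
  nlinarith

/-- The root `E_i - E_j`. -/
def pr (i j : Fin s) : ℤ × (Fin s → ℤ) :=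
  (0, fun l => (if l = j then 1 else 0) - (if l = i then 1 else 0))

theorem dot_pr (x : ℤ × (Fin s → ℤ)) (i j : Fin s) : dot x (pr i j) = x.2 i - x.2 j := dot_pt x

theorem pr_dot (x : ℤ × (Fin s → ℤ)) (i j : Fin s) : dot (pr i j) x = x.2 i - x.2 j := by
  rw [dot_comm, dot_pr]

theorem pr_pr {i j k l : Fin s} : dot (pr i j) (pr k l) =
    ((if k = j then 1 else 0) - (if k = i then 1 else 0)) -
      ((if l = j then 1 else 0) - (if l = i then 1 else 0)) := by
  rw [dot_pr]
  rfl

/-- An effective class with equal multiplicities at the points `i` and `j`. -/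
def Edge (m : Fin s → ℕ) (x : ℤ × (Fin s → ℤ)) (i j : Fin s) : Prop := m i = m j ∧ x.2 i ≠ x.2 j

theorem Edge.symm {m : Fin s → ℕ} {x : ℤ × (Fin s → ℤ)} {i j : Fin s} (h : Edge m x i j) :
    Edge m x j i := ⟨h.1.symm, h.2.symm⟩

theorem Edge.ne {m : Fin s → ℕ} {x : ℤ × (Fin s → ℤ)} {i j : Fin s} (h : Edge m x i j) :
    i ≠ j := fun h1 => h.2 (by rw [h1])

theorem no_disj (hP : AlgebraicIndependent ℚ (fun ij : Fin s × Fin 2 => P ij.1 ij.2))
    (hD : Eff P d m) (hx : Orb P x) (hneg : dot x (cls d m) < 0) {i j k l : Fin s}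
    (h1 : Edge m x i j) (h2 : Edge m x k l) (hik : i ≠ k) (hil : i ≠ l) (hjk : j ≠ k)
    (hjl : j ≠ l) : False := by
  have e1 : dot (pr i j) (cls d m) = 0 := by
    rw [pr_dot]
    show (m i : ℤ) - m j = 0
    rw [h1.1, sub_self]
  have e2 : dot (pr k l) (cls d m) = 0 := by
    rw [pr_dot]
    show (m k : ℤ) - m l = 0
    rw [h2.1, sub_self]
  rcases fix_orth hP hD hx hneg (a := pr i j) (b := pr k l) (Root.pt h1.ne) e1 (Root.pt h2.ne) e2
    (by rw [pr_pr]; simp [hik.symm, hjk.symm, hil.symm, hjl.symm]) with h | h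
  · rw [dot_pr] at h
    exact h1.2 (by omega)
  · rw [dot_pr] at h
    exact h2.2 (by omega)

theorem no_tri (hP : AlgebraicIndependent ℚ (fun ij : Fin s × Fin 2 => P ij.1 ij.2))
    (hD : Eff P d m) (hx : Orb P x) (hneg : dot x (cls d m) < 0) {i j k : Fin s}
    (h1 : Edge m x i j) (h2 : Edge m x j k) (h3 : Edge m x i k) : False := by
  have e1 : dot (pr i j) (cls d m) = 0 := by
    rw [pr_dot]
    show (m i : ℤ) - m j = 0
    rw [h1.1, sub_self]
  have e2 : dot (pr j k) (cls d m) = 0 := by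
    rw [pr_dot]
    show (m j : ℤ) - m k = 0
    rw [h2.1, sub_self]
  have g1 := h1.ne
  have g2 := h2.ne
  have g3 := h3.ne
  rcases fix_tri hP hD hx hneg (a := pr i j) (b := pr j k) (Root.pt g1) e1 (Root.pt g2) e2
    (by rw [pr_pr]; simp [g1.symm, g2.symm, g3.symm]) with h | h | h
  · rw [dot_pr] at h
    exact h1.2 (by omega)
  · rw [dot_pr] at h
    exact h2.2 (by omega)
  · rw [dot_pr, dot_pr] at h
    exact h3.2 (by omega)

/-- All edges have a common vertex. -/
theorem star {s : ℕ} (hs : 0 < s) {E : Fin s → Fin s → Prop} (hsymm : ∀ i j, E i j → E j i)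
    (hne : ∀ i j, E i j → i ≠ j)
    (h1 : ∀ i j k l, E i j → E k l → i ≠ k → i ≠ l → j ≠ k → j ≠ l → False)
    (h2 : ∀ i j k, E i j → E j k → E i k → False) :
    ∃ i0, ∀ i j, i ≠ i0 → j ≠ i0 → ¬ E i j := by
  by_contra hcon
  push Not at hcon
  obtain ⟨a, b, -, -, hab⟩ := hcon ⟨0, hs⟩
  -- an edge which does not contain `a`
  obtain ⟨p, q, hpa, hqa, hpq⟩ := hcon a
  -- an edge which does not contain `b`
  obtain ⟨u, v, hub, hvb, huv⟩ := hcon b
  have hab' := hne _ _ hab
  -- the first contains `b`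
  have k1 : ∃ c, E b c ∧ c ≠ a := by
    by_cases hp : p = b
    · subst hp
      exact ⟨q, hpq, hqa⟩
    · by_cases hq : q = b
      · subst hq
        exact ⟨p, hsymm _ _ hpq, hpa⟩
      · exact (h1 a b p q hab hpq hpa.symm hqa.symm (Ne.symm hp) (Ne.symm hq)).elim
  have k2 : ∃ c, E a c ∧ c ≠ b := by
    by_cases hu : u = a
    · subst hu
      exact ⟨v, huv, hvb⟩
    · by_cases hv : v = a
      · subst hv
        exact ⟨u, hsymm _ _ huv, hub⟩
      · exact (h1 a b u v hab huv (Ne.symm hu) (Ne.symm hv) hub.symm hvb.symm).elim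
  obtain ⟨c, hbc, hca⟩ := k1
  obtain ⟨c', hac, hcb⟩ := k2
  by_cases hcc : c = c'
  · subst hcc
    exact h2 a b c hab hbc hac
  · exact h1 b c a c' hbc hac hab'.symm hcb.symm hca hcc

/-- The multiplicities of the curve at the points where the effective class has the same
multiplicity. -/
theorem blocks (hs : 0 < s)
    (hP : AlgebraicIndependent ℚ (fun ij : Fin s × Fin 2 => P ij.1 ij.2))
    (hD : Eff P d m) (hx : Orb P x) (hneg : dot x (cls d m) < 0) :
    ∃ i0, (∀ i j, i ≠ i0 → j ≠ i0 → m i = m j → x.2 i = x.2 j) ∧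
      ∀ i, m i = m i0 → x.2 i ≠ x.2 i0 → - dot x x ≤ (x.2 i - x.2 i0) ^ 2 ∧
        (((Finset.univ.filter fun j => m j = m i0).card : ℤ) - 1) * (x.2 i - x.2 i0) ^ 2 <
          (Finset.univ.filter fun j => m j = m i0).card * (- dot x x) := by
  classical
  obtain ⟨i0, hi0⟩ := star hs (E := Edge m x) (fun i j h => h.symm) (fun i j h => h.ne)
    (fun i j k l h1 h2 h3 h4 h5 h6 => no_disj hP hD hx hneg h1 h2 h3 h4 h5 h6)
    (fun i j k h1 h2 h3 => no_tri hP hD hx hneg h1 h2 h3)
  have hall : ∀ i j, i ≠ i0 → j ≠ i0 → m i = m j → x.2 i = x.2 j := by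
    intro i j h1 h2 h3
    by_contra h4
    exact hi0 i j h1 h2 ⟨h3, h4⟩
  refine ⟨i0, hall, fun i hi hne => ?_⟩
  have hii : i ≠ i0 := fun h => hne (by rw [h])
  constructor
  · have h1 := gap_root hP hx (Root.pt hii) (by rw [dot_pt]; omega)
    rw [dot_pt] at h1
    exact h1
  · obtain ⟨t, ht⟩ : ∃ t : Finset (Fin s),
        t = (Finset.univ.filter fun j => m j = m i0).erase i0 := ⟨_, rfl⟩
    have hmem : i0 ∈ Finset.univ.filter fun j => m j = m i0 := by simp
    have hcard : ((Finset.univ.filter fun j => m j = m i0).card : ℤ) = t.card + 1 := by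
      have := Finset.card_erase_of_mem hmem
      rw [← ht] at this
      have h2 : 1 ≤ (Finset.univ.filter fun j => m j = m i0).card :=
        Finset.card_pos.2 ⟨_, hmem⟩
      omega
    have hval : ∀ j ∈ t, j ≠ i0 ∧ m j = m i0 := by
      intro j hj
      rw [ht, Finset.mem_erase, Finset.mem_filter] at hj
      exact ⟨hj.1, hj.2.2⟩
    have h := fix_many hP hD hx hneg t (fun j => pr i0 j)
      (fun j hj => Root.pt (hval j hj).1.symm)
      (fun j hj => by
        rw [pr_dot]
        show (m i0 : ℤ) - m j = 0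
        rw [(hval j hj).2, sub_self])
      (fun j hj k hk hjk => by
        rw [pr_pr]
        simp [(hval j hj).1.symm, (hval k hk).1, hjk.symm])
      (δ := x.2 i0 - x.2 i)
      (fun j hj => by
        rw [dot_pr, hall j i (hval j hj).1 hii (by rw [(hval j hj).2, hi])])
    rw [hcard]
    have e : (x.2 i - x.2 i0) ^ 2 = (x.2 i0 - x.2 i) ^ 2 := by ring
    rw [e]
    linarith

end Pool.Agent.T6.H98.WO
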