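import Pool.Agent.T6.H98.WO.Orb

set_option autoImplicit false

/-!
# The standard conjugate of a negative curve
-/

namespace Pool.Agent.T6.H98.WO

open MvPolynomial Pool.Agent.W609 Pool.Agent.W609.CR Pool.Agent.TH167 Pool.Agent.TH167.SH
open Pool.Agent.TH442.NF (cls refl Step refl_cls cls_inj)
open Pool.Agent.R355.NegOrb

/-- Reduction to the standard form does not increase the intersection number with a standard
class. -/
theorem std_D {r : ℕ} {P : Fin (r + 4) → Fin 2 → ℂ}
    (hP : AlgebraicIndependent ℚ (fun ij : Fin (r + 4) × Fin 2 => P ij.1 ij.2)) {d : ℕ}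
    {m : Fin (r + 4) → ℕ} (hD : Reduced d m) :
    ∀ (e : ℕ) (u : Fin (r + 4) → ℕ), Irr P e u → ∃ (e1 : ℕ) (u1 : Fin (r + 4) → ℕ),
      Conj (cls e u) (cls e1 u1) ∧ Irr P e1 u1 ∧ Reduced e1 u1 ∧
      dot (cls e1 u1) (cls d m) ≤ dot (cls e u) (cls d m) := by
  intro e
  induction e using Nat.strong_induction_on with
  | _ e ih =>
    intro u hI
    by_cases hred : Reduced e u
    · exact ⟨e, u, Relation.ReflTransGen.refl, hI, hred, le_rfl⟩
    · have hred' := hred
      unfold Reduced at hred'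
      push Not at hred'
      obtain ⟨a, b, c, hab, hac, hbc, hlt⟩ := hred'
      have hi : Function.Injective ![a, b, c] := inj_cons hab hac hbc
      have p := hI.ps hP hi
      have hc1 := cd_cast p
      unfold dl at hc1
      have e0 : u (![a, b, c] 0) = u a := rfl
      have e1 : u (![a, b, c] 1) = u b := rfl
      have e2 : u (![a, b, c] 2) = u c := rfl
      rw [e0, e1, e2] at hc1
      have hlt' : cd ![a, b, c] e u < e := by omega
      obtain ⟨e1, u1, h1, h2, h3, h4⟩ := ih _ hlt' _ (hI.step hP hi)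
      have hcl : cls (cd ![a, b, c] e u) (wcr e ![a, b, c] u) =
          sr (1, fun l => if l = a ∨ l = b ∨ l = c then 1 else 0) (cls e u) := by
        rw [← refl_cls hi p, refl_eq hi]
        rfl
      have hle : dot (cls (cd ![a, b, c] e u) (wcr e ![a, b, c] u)) (cls d m) ≤
          dot (cls e u) (cls d m) := by
        rw [hcl, sr_dot, dot_ln hab hac hbc, dot_comm (1, _), dot_ln hab hac hbc]
        have g1 : ((cls e u).1 - (cls e u).2 a - (cls e u).2 b - (cls e u).2 c) ≤ 0 := by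
          show (e : ℤ) - u a - u b - u c ≤ 0
          omega
        have g2 : 0 ≤ ((cls d m).1 - (cls d m).2 a - (cls d m).2 b - (cls d m).2 c) := by
          show 0 ≤ (d : ℤ) - m a - m b - m c
          have := hD a b c hab hac hbc
          omega
        nlinarith
      refine ⟨e1, u1, ?_, h2, h3, h4.trans hle⟩
      exact Relation.ReflTransGen.head ⟨_, Root.ln hab hac hbc, hcl⟩ h1

variable {s : ℕ}

theorem conj_perm (σ : Equiv.Perm (Fin s)) :
    ∀ x : ℤ × (Fin s → ℤ), Conj x (x.1, fun l => x.2 (σ l)) := by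
  classical
  refine Equiv.Perm.swap_induction_on σ (fun x => Relation.ReflTransGen.refl) ?_
  intro f i j hij ih x
  have h1 := ih (x.1, fun l => x.2 (Equiv.swap i j l))
  refine Relation.ReflTransGen.head ⟨_, Root.pt hij, ?_⟩ h1
  rw [sr_pt]

/-- The multiplicities can be ordered like those of a given class. -/
theorem exists_mono (m u : Fin s → ℕ) : ∃ σ : Equiv.Perm (Fin s),
    (∀ i j, m i < m j → u (σ i) ≤ u (σ j)) ∧ ∑ i, u i * m i ≤ ∑ i, u (σ i) * m i := by
  have h1 := Tuple.monotone_sort m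
  have h2 := Tuple.monotone_sort u
  have hmono : ∀ i j, m i < m j →
      u (((Tuple.sort m).symm.trans (Tuple.sort u)) i) ≤
        u (((Tuple.sort m).symm.trans (Tuple.sort u)) j) := by
    intro i j hij
    have hlt : (Tuple.sort m).symm i ≤ (Tuple.sort m).symm j := by
      by_contra hcon
      push Not at hcon
      have := h1 hcon.le
      simp only [Function.comp_apply, Equiv.apply_symm_apply] at this
      omega
    exact h2 hlt
  refine ⟨(Tuple.sort m).symm.trans (Tuple.sort u), hmono, ?_⟩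
  obtain ⟨σ, hσ⟩ : ∃ σ : Equiv.Perm (Fin s), σ = (Tuple.sort m).symm.trans (Tuple.sort u) :=
    ⟨_, rfl⟩
  rw [← hσ] at hmono ⊢
  have hmv : Monovary (fun i => u (σ i)) m := fun i j hij => hmono i j hij
  have h3 := Monovary.sum_comp_perm_mul_le_sum_mul (σ := σ.symm) hmv
  simpa using h3

theorem std_mono {r : ℕ} {P : Fin (r + 4) → Fin 2 → ℂ}
    (hP : AlgebraicIndependent ℚ (fun ij : Fin (r + 4) × Fin 2 => P ij.1 ij.2)) {d : ℕ}
    {m : Fin (r + 4) → ℕ} (hD : Reduced d m) {e : ℕ} {u : Fin (r + 4) → ℕ} (hI : Irr P e u) :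
    ∃ (e1 : ℕ) (u1 : Fin (r + 4) → ℕ),
      Conj (cls e u) (cls e1 u1) ∧ Irr P e1 u1 ∧ Reduced e1 u1 ∧
      (∀ i j, m i < m j → u1 i ≤ u1 j) ∧
      dot (cls e1 u1) (cls d m) ≤ dot (cls e u) (cls d m) := by
  obtain ⟨e1, u1, h1, h2, h3, h4⟩ := std_D hP hD e u hI
  obtain ⟨σ, g1, g2⟩ := exists_mono m u1
  have hc := conj_perm σ (cls e1 u1)
  have he : ((cls e1 u1).1, fun l => (cls e1 u1).2 (σ l)) = cls e1 (fun l => u1 (σ l)) := rfl
  rw [he] at hc
  have hO : Orb P (cls e1 u1) := ⟨e1, u1, rfl, h2⟩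
  obtain ⟨e2, u2, h5, h6⟩ := hO.conj hP hc
  obtain ⟨h7, h8⟩ := cls_inj h5
  subst h7
  subst h8
  refine ⟨e1, fun l => u1 (σ l), h1.trans hc, h6, ?_, g1, ?_⟩
  · intro a b c hab hac hbc
    exact h3 _ _ _ (fun h => hab (σ.injective h)) (fun h => hac (σ.injective h))
      (fun h => hbc (σ.injective h))
  · refine le_trans ?_ h4
    have k1 : dot (cls e1 (fun l => u1 (σ l))) (cls d m) =
        (e1 : ℤ) * d - ((∑ l, u1 (σ l) * m l : ℕ) : ℤ) := by
      push_cast
      rfl
    have k2 : dot (cls e1 u1) (cls d m) = (e1 : ℤ) * d - ((∑ l, u1 l * m l : ℕ) : ℤ) := by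
      push_cast
      rfl
    rw [k1, k2]
    have : ((∑ l, u1 l * m l : ℕ) : ℤ) ≤ ((∑ l, u1 (σ l) * m l : ℕ) : ℤ) := by exact_mod_cast g2
    linarith

end Pool.Agent.T6.H98.WO
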