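import Pool.Agent.T6.H98.WO.Lat

set_option autoImplicit false

/-!
# Nine points: translations
-/

namespace Pool.Agent.T6.H98.WO

variable {s : ℕ}

theorem dot_add (x a b : ℤ × (Fin s → ℤ)) : dot x (a + b) = dot x a + dot x b := by
  have h1 : ∑ l, x.2 l * (a.2 l + b.2 l) = ∑ l, x.2 l * a.2 l + ∑ l, x.2 l * b.2 l := by
    rw [← Finset.sum_add_distrib]
    exact Finset.sum_congr rfl fun l _ => by ring
  show x.1 * (a.1 + b.1) - ∑ l, x.2 l * (a.2 l + b.2 l) =
    (x.1 * a.1 - ∑ l, x.2 l * a.2 l) + (x.1 * b.1 - ∑ l, x.2 l * b.2 l)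
  rw [h1]
  ring

/-- The product of the reflections in `a` and `N + a`. -/
def tr (N a x : ℤ × (Fin s → ℤ)) : ℤ × (Fin s → ℤ) := sr (N + a) (sr a x)

section tr

variable {N a : ℤ × (Fin s → ℤ)}

theorem dot_tr_aux (ha : dot a a = -2) (hNa : dot a N = 0) (x : ℤ × (Fin s → ℤ)) :
    dot (sr a x) (N + a) = dot x N - dot x a := by
  rw [dot_add, sr_dot, sr_dot, ha, hNa]
  ring

theorem tr_N (ha : dot a a = -2) (hNa : dot a N = 0) (hN : dot N N = 0)
    (x : ℤ × (Fin s → ℤ)) : dot (tr N a x) N = dot x N := by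
  have h1 : dot (N + a) N = 0 := by rw [dot_comm, dot_add, hN, dot_comm, hNa, add_zero]
  unfold tr
  rw [sr_dot, sr_dot, h1, hNa]
  ring

theorem tr_a (ha : dot a a = -2) (hNa : dot a N = 0)
    (x : ℤ × (Fin s → ℤ)) : dot (tr N a x) a = dot x a - 2 * dot x N := by
  have h1 : dot (N + a) a = -2 := by rw [dot_comm, dot_add, ha, hNa, zero_add]
  unfold tr
  rw [sr_dot, dot_tr_aux ha hNa, sr_dot, h1, ha]
  ring

theorem tr_fst (ha : dot a a = -2) (hNa : dot a N = 0) (ha0 : a.1 = 0)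
    (x : ℤ × (Fin s → ℤ)) : (tr N a x).1 = x.1 + N.1 * (dot x N - dot x a) := by
  show (sr a x).1 + dot (sr a x) (N + a) * (N.1 + a.1) = _
  rw [dot_tr_aux ha hNa, ha0]
  show x.1 + dot x a * a.1 + _ = _
  rw [ha0]
  ring

theorem dot_tr (ha : dot a a = -2) (hNa : dot a N = 0) (x : ℤ × (Fin s → ℤ)) :
    dot x (tr N a x) = dot x x + dot x N ^ 2 := by
  unfold tr
  rw [dot_sr, dot_tr_aux ha hNa, dot_sr, dot_add]
  ring

theorem tr_iter {S : ℤ × (Fin s → ℤ) → Prop} (hS : ∀ x, S x → S (tr N a x))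
    (h0 : ∀ x, S x → 0 ≤ x.1) (ha : dot a a = -2) (hNa : dot a N = 0) (hN : dot N N = 0)
    (ha0 : a.1 = 0) : ∀ (m : ℕ) (x : ℤ × (Fin s → ℤ)), S x →
      0 ≤ x.1 + N.1 * (m * (dot x N - dot x a) + dot x N * m * (m - 1)) := by
  intro m
  induction m with
  | zero =>
    intro x hx
    have := h0 x hx
    simpa using this
  | succ m ih =>
    intro x hx
    have h1 := ih _ (hS x hx)
    rw [tr_N ha hNa hN, tr_a ha hNa, tr_fst ha hNa ha0] at h1
    push_cast
    have e : x.1 + N.1 * (dot x N - dot x a) +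
        N.1 * (m * (dot x N - (dot x a - 2 * dot x N)) + dot x N * m * (m - 1)) =
        x.1 + N.1 * ((m + 1) * (dot x N - dot x a) + dot x N * (m + 1) * (m + 1 - 1)) := by
      ring
    linarith

theorem tr_nonneg {S : ℤ × (Fin s → ℤ) → Prop} (hS : ∀ x, S x → S (tr N a x))
    (h0 : ∀ x, S x → 0 ≤ x.1) (ha : dot a a = -2) (hNa : dot a N = 0) (hN : dot N N = 0)
    (ha0 : a.1 = 0) (hN1 : 0 < N.1) {x : ℤ × (Fin s → ℤ)} (hx : S x) :
    0 ≤ dot x N ∧ (dot x N = 0 → dot x a ≤ 0) := by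
  have hx0 := h0 x hx
  constructor
  · by_contra hcon
    push Not at hcon
    obtain ⟨m, hm⟩ : ∃ m : ℕ, (m : ℤ) = |dot x N - dot x a| + 2 + x.1 :=
      ⟨(|dot x N - dot x a| + 2 + x.1).toNat, Int.toNat_of_nonneg (by
        have := abs_nonneg (dot x N - dot x a)
        omega)⟩
    have h1 := tr_iter hS h0 ha hNa hN ha0 m x hx
    have h2 : dot x N - dot x a ≤ |dot x N - dot x a| := le_abs_self _
    have h3 := abs_nonneg (dot x N - dot x a)
    have hm0 : 2 ≤ (m : ℤ) := by omega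
    have h4 : (m : ℤ) * (dot x N - dot x a) + dot x N * m * (m - 1) ≤ m * (- (1 + x.1)) := by
      have h5 : dot x N * ((m : ℤ) * (m - 1)) ≤ (-1) * ((m : ℤ) * (m - 1)) :=
        mul_le_mul_of_nonneg_right (by omega) (by nlinarith)
      have h6 : (m : ℤ) * (dot x N - dot x a) ≤ m * |dot x N - dot x a| :=
        mul_le_mul_of_nonneg_left h2 (by omega)
      have h7 : (m : ℤ) * |dot x N - dot x a| + (-1) * ((m : ℤ) * (m - 1)) =
          m * (|dot x N - dot x a| - (m - 1)) := by ring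
      have h8 : |dot x N - dot x a| - ((m : ℤ) - 1) = - (1 + x.1) := by omega
      rw [h8] at h7
      nlinarith
    have h9 : N.1 * ((m : ℤ) * (dot x N - dot x a) + dot x N * m * (m - 1)) ≤
        1 * (m * (- (1 + x.1))) := by
      have h10 : (m : ℤ) * (- (1 + x.1)) ≤ 0 := by nlinarith
      have h11 : N.1 * ((m : ℤ) * (dot x N - dot x a) + dot x N * m * (m - 1)) ≤
          N.1 * (m * (- (1 + x.1))) := mul_le_mul_of_nonneg_left h4 hN1.le
      nlinarith
    nlinarith
  · intro hn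
    by_contra hcon
    push Not at hcon
    obtain ⟨m, hm⟩ : ∃ m : ℕ, (m : ℤ) = x.1 + 1 :=
      ⟨(x.1 + 1).toNat, Int.toNat_of_nonneg (by omega)⟩
    have h1 := tr_iter hS h0 ha hNa hN ha0 m x hx
    rw [hn, hm] at h1
    have h2 : (x.1 + 1) * 1 ≤ (x.1 + 1) * dot x a := mul_le_mul_of_nonneg_left hcon (by omega)
    have h3 : 1 * ((x.1 + 1) * dot x a) ≤ N.1 * ((x.1 + 1) * dot x a) :=
      mul_le_mul_of_nonneg_right hN1 (by nlinarith)
    nlinarith

end tr

/-- The anticanonical class of nine of the points. -/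
def nine (f : Fin 9 → Fin s) : ℤ × (Fin s → ℤ) := (3, fun l => ∑ k, if l = f k then 1 else 0)

theorem dot_nine (f : Fin 9 → Fin s) (x : ℤ × (Fin s → ℤ)) :
    dot x (nine f) = 3 * x.1 - ∑ k, x.2 (f k) := by
  have h1 : ∑ l, x.2 l * ∑ k, (if l = f k then (1 : ℤ) else 0) = ∑ k, x.2 (f k) := by
    have h2 : ∀ l, x.2 l * ∑ k, (if l = f k then (1 : ℤ) else 0) =
        ∑ k, if l = f k then x.2 l else 0 := by
      intro l
      rw [Finset.mul_sum]
      exact Finset.sum_congr rfl fun k _ => by split_ifs <;> ring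
    rw [Finset.sum_congr rfl fun l _ => h2 l, Finset.sum_comm]
    refine Finset.sum_congr rfl fun k _ => ?_
    rw [Finset.sum_ite_eq' Finset.univ (f k), if_pos (Finset.mem_univ _)]
  show x.1 * 3 - ∑ l, x.2 l * ∑ k, (if l = f k then (1 : ℤ) else 0) = _
  rw [h1]
  ring

theorem nine_comp (f : Fin 9 → Fin s) (σ : Equiv.Perm (Fin 9)) : nine (f ∘ σ) = nine f := by
  refine Prod.ext rfl (funext fun l => ?_)
  show ∑ k, (if l = f (σ k) then (1 : ℤ) else 0) = ∑ k, if l = f k then (1 : ℤ) else 0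
  exact Equiv.sum_comp σ fun k => if l = f k then (1 : ℤ) else 0

theorem ind3 {i j k : Fin s} (hij : i ≠ j) (hik : i ≠ k) (hjk : j ≠ k) (l : Fin s) :
    (if l = i ∨ l = j ∨ l = k then (1 : ℤ) else 0) =
      (if l = i then 1 else 0) + (if l = j then 1 else 0) + (if l = k then 1 else 0) := by
  by_cases h1 : l = i
  · subst h1
    simp [hij, hik]
  · by_cases h2 : l = j
    · subst h2
      simp [h1, hjk]
    · by_cases h3 : l = k
      · subst h3
        simp [h1, h2]
      · simp [h1, h2, h3]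

theorem root_nine0 {f : Fin 9 → Fin s} (hf : Function.Injective f) :
    Root (nine f + (0, fun l => (if l = f 1 then 1 else 0) - (if l = f 0 then 1 else 0))) := by
  have hne : ∀ {a b : Fin 9}, a ≠ b → f a ≠ f b := fun h h1 => h (hf h1)
  have r0 : Root (s := s) (1, fun l => if l = f 1 ∨ l = f 2 ∨ l = f 3 then 1 else 0) :=
    Root.ln (hne (by decide)) (hne (by decide)) (hne (by decide))
  have b1 : Root (s := s) (1, fun l => if l = f 4 ∨ l = f 5 ∨ l = f 6 then 1 else 0) :=
    Root.ln (hne (by decide)) (hne (by decide)) (hne (by decide))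
  have b2 : Root (s := s) (1, fun l => if l = f 1 ∨ l = f 7 ∨ l = f 8 then 1 else 0) :=
    Root.ln (hne (by decide)) (hne (by decide)) (hne (by decide))
  have h := Root.sr b2 (Root.sr b1 r0)
  have e1 : dot (1, fun l : Fin s => if l = f 1 ∨ l = f 2 ∨ l = f 3 then (1 : ℤ) else 0)
      (1, fun l => if l = f 4 ∨ l = f 5 ∨ l = f 6 then 1 else 0) = 1 := by
    rw [dot_ln (hne (by decide)) (hne (by decide)) (hne (by decide))]
    simp [hf.eq_iff]
  have e2 : sr (1, fun l => if l = f 4 ∨ l = f 5 ∨ l = f 6 then 1 else 0)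
      (1, fun l : Fin s => if l = f 1 ∨ l = f 2 ∨ l = f 3 then (1 : ℤ) else 0) =
      (2, fun l => (if l = f 1 ∨ l = f 2 ∨ l = f 3 then (1 : ℤ) else 0) +
        if l = f 4 ∨ l = f 5 ∨ l = f 6 then 1 else 0) := by
    unfold sr
    rw [e1]
    refine Prod.ext (by norm_num) (funext fun l => by simp)
  rw [e2] at h
  have e3 : dot (2, fun l : Fin s => (if l = f 1 ∨ l = f 2 ∨ l = f 3 then (1 : ℤ) else 0) +
        if l = f 4 ∨ l = f 5 ∨ l = f 6 then 1 else 0)
      (1, fun l => if l = f 1 ∨ l = f 7 ∨ l = f 8 then 1 else 0) = 1 := by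
    rw [dot_ln (hne (by decide)) (hne (by decide)) (hne (by decide))]
    simp [hf.eq_iff]
  have e4 : sr (1, fun l => if l = f 1 ∨ l = f 7 ∨ l = f 8 then 1 else 0)
      (2, fun l : Fin s => (if l = f 1 ∨ l = f 2 ∨ l = f 3 then (1 : ℤ) else 0) +
        if l = f 4 ∨ l = f 5 ∨ l = f 6 then 1 else 0) =
      nine f + (0, fun l => (if l = f 1 then 1 else 0) - (if l = f 0 then 1 else 0)) := by
    unfold sr
    rw [e3]
    refine Prod.ext (by simp [nine]) (funext fun l => ?_)
    show (if l = f 1 ∨ l = f 2 ∨ l = f 3 then (1 : ℤ) else 0) +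
        (if l = f 4 ∨ l = f 5 ∨ l = f 6 then 1 else 0) +
        1 * (if l = f 1 ∨ l = f 7 ∨ l = f 8 then 1 else 0) =
      (∑ k, if l = f k then (1 : ℤ) else 0) + ((if l = f 1 then 1 else 0) -
        (if l = f 0 then 1 else 0))
    rw [ind3 (hne (by decide)) (hne (by decide)) (hne (by decide)),
      ind3 (hne (by decide)) (hne (by decide)) (hne (by decide)),
      ind3 (hne (by decide)) (hne (by decide)) (hne (by decide))]
    simp only [Fin.sum_univ_succ, Fin.sum_univ_zero]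
    simp only [Fin.succ_zero_eq_one, Fin.succ_one_eq_two, Fin.reduceSucc, Fin.isValue]
    ring
  rw [e4] at h
  exact h

theorem exists_perm {a b : Fin 9} (h : a ≠ b) : ∃ σ : Equiv.Perm (Fin 9), σ 0 = a ∧ σ 1 = b := by
  refine ⟨(Equiv.swap 1 (Equiv.swap 0 a b)).trans (Equiv.swap 0 a), ?_, ?_⟩
  · have h1 : (0 : Fin 9) ≠ Equiv.swap 0 a b := by
      intro h2
      have h3 : Equiv.swap 0 a 0 = Equiv.swap 0 a (Equiv.swap 0 a b) := by rw [← h2]
      rw [Equiv.swap_apply_left, Equiv.swap_apply_self] at h3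
      exact h h3
    rw [Equiv.trans_apply, Equiv.swap_apply_of_ne_of_ne (by decide) h1, Equiv.swap_apply_left]
  · rw [Equiv.trans_apply, Equiv.swap_apply_left, Equiv.swap_apply_self]

theorem root_nine {f : Fin 9 → Fin s} (hf : Function.Injective f) {a b : Fin 9} (h : a ≠ b) :
    Root (nine f + (0, fun l => (if l = f b then 1 else 0) - (if l = f a then 1 else 0))) := by
  obtain ⟨σ, rfl, rfl⟩ := exists_perm h
  have h1 := root_nine0 (hf.comp σ.injective)
  rw [nine_comp] at h1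
  exact h1

theorem nine_nine {f : Fin 9 → Fin s} (hf : Function.Injective f) : dot (nine f) (nine f) = 0 := by
  rw [dot_nine]
  have h1 : ∀ k, (nine f).2 (f k) = 1 := by
    intro k
    show ∑ k', (if f k = f k' then (1 : ℤ) else 0) = 1
    simp [hf.eq_iff]
  rw [Finset.sum_congr rfl fun k _ => h1 k]
  simp [nine]

/-- A family of classes of nonnegative degree, closed under reflections in roots. -/
theorem nine_nonneg {S : ℤ × (Fin s → ℤ) → Prop} (hS : ∀ a, Root a → ∀ x, S x → S (sr a x))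
    (h0 : ∀ x, S x → 0 ≤ x.1) {x : ℤ × (Fin s → ℤ)} (hx : S x) {f : Fin 9 → Fin s}
    (hf : Function.Injective f) :
    0 ≤ dot x (nine f) ∧ (dot x (nine f) = 0 → ∀ a b, x.2 (f a) = x.2 (f b)) ∧
    (S (tr (nine f) (0, fun l => (if l = f 1 then 1 else 0) - (if l = f 0 then 1 else 0)) x) ∧
      dot x (tr (nine f) (0, fun l => (if l = f 1 then 1 else 0) -
        (if l = f 0 then 1 else 0)) x) = dot x x + dot x (nine f) ^ 2) := by
  have key : ∀ a b : Fin 9, a ≠ b → 0 ≤ dot x (nine f) ∧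
      (dot x (nine f) = 0 → x.2 (f a) ≤ x.2 (f b)) ∧
      (S (tr (nine f) (0, fun l => (if l = f b then 1 else 0) - (if l = f a then 1 else 0)) x) ∧
      dot x (tr (nine f) (0, fun l => (if l = f b then 1 else 0) -
        (if l = f a then 1 else 0)) x) = dot x x + dot x (nine f) ^ 2) := by
    intro a b hab
    have r1 : Root (s := s) (0, fun l => (if l = f b then 1 else 0) - (if l = f a then 1 else 0)) :=
      Root.pt fun h => hab (hf h)
    have r2 := root_nine hf hab
    have hNa : dot (0, fun l => (if l = f b then 1 else 0) - (if l = f a then 1 else 0))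
        (nine f) = 0 := by
      rw [dot_comm, dot_pt]
      have h1 : ∀ k, (nine f).2 (f k) = 1 := by
        intro k
        show ∑ k', (if f k = f k' then (1 : ℤ) else 0) = 1
        simp [hf.eq_iff]
      rw [h1, h1, sub_self]
    have h1 := tr_nonneg (S := S) (N := nine f) (fun y hy => hS _ r2 _ (hS _ r1 _ hy)) h0 r1.sq hNa
      (nine_nine hf) rfl (by show (0 : ℤ) < 3; norm_num) hx
    rw [dot_pt] at h1
    exact ⟨h1.1, fun h => by have := h1.2 h; omega, hS _ r2 _ (hS _ r1 _ hx), dot_tr r1.sq hNa x⟩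
  refine ⟨(key 0 1 (by decide)).1, fun h a b => ?_, (key 0 1 (by decide)).2.2⟩
  by_cases hab : a = b
  · rw [hab]
  · exact le_antisymm ((key a b hab).2.1 h) ((key b a (Ne.symm hab)).2.1 h)

end Pool.Agent.T6.H98.WO
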