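import Pool.Agent.T6.H98.WO.Orb
import Pool.Agent.T6.H98.WO.Nine
import Pool.Agent.R355.CanDeg2

set_option autoImplicit false

/-!
# Negative curves and the anticanonical classes of nine of the points
-/

namespace Pool.Agent.T6.H98.WO

open MvPolynomial Pool.Agent.W609 Pool.Agent.W609.CR Pool.Agent.TH167 Pool.Agent.TH167.SH
open Pool.Agent.TH442.NF (cls refl Step refl_cls cls_inj)
open Pool.Agent.R355.NegOrb

theorem gap_nine {r : ℕ} {P : Fin (r + 4) → Fin 2 → ℂ}
    (hP : AlgebraicIndependent ℚ (fun ij : Fin (r + 4) × Fin 2 => P ij.1 ij.2))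
    {x : ℤ × (Fin (r + 4) → ℤ)} (hx : Orb P x) (hneg : dot x x < 0)
    {f : Fin 9 → Fin (r + 4)} (hf : Function.Injective f) :
    0 < dot x (nine f) ∧ - dot x x ≤ dot x (nine f) ^ 2 := by
  classical
  obtain ⟨h1, h2, h3, h4⟩ := nine_nonneg (S := Orb P) (fun a ha x hx => hx.sr hP ha)
    (fun x hx => hx.nonneg) hx hf
  have hpos : 0 < dot x (nine f) := by
    refine lt_of_le_of_ne h1 fun h0 => ?_
    have h5 := h2 h0.symm
    obtain ⟨c, hc⟩ : ∃ c, ∀ a, x.2 (f a) = c := ⟨x.2 (f 0), fun a => h5 a 0⟩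
    have h6 := dot_nine f x
    rw [← h0, Finset.sum_congr rfl fun k _ => hc k] at h6
    simp only [Finset.sum_const, Finset.card_univ, Fintype.card_fin, nsmul_eq_mul,
      Nat.cast_ofNat] at h6
    have h7 : x.1 = 3 * c := by linarith
    obtain ⟨T, hT⟩ : ∃ T : Finset (Fin (r + 4)), T = Finset.univ.image f := ⟨_, rfl⟩
    have hsum : ∀ g : Fin (r + 4) → ℤ, ∑ l, g l = ∑ k, g (f k) + ∑ l ∈ Tᶜ, g l := by
      intro g
      rw [← Finset.sum_add_sum_compl T g, hT, Finset.sum_image fun a _ b _ h => hf h]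
    have e1 : ∑ l, x.2 l * x.2 l = 9 * c ^ 2 + ∑ l ∈ Tᶜ, x.2 l * x.2 l := by
      rw [hsum, Finset.sum_congr rfl fun k _ => show x.2 (f k) * x.2 (f k) = c * c by rw [hc]]
      simp only [Finset.sum_const, Finset.card_univ, Fintype.card_fin, nsmul_eq_mul,
        Nat.cast_ofNat]
      ring
    have e2 : ∑ l, x.2 l = 9 * c + ∑ l ∈ Tᶜ, x.2 l := by
      rw [hsum, Finset.sum_congr rfl fun k _ => hc k]
      simp only [Finset.sum_const, Finset.card_univ, Fintype.card_fin, nsmul_eq_mul,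
        Nat.cast_ofNat]
    have e3 : dot x x = - ∑ l ∈ Tᶜ, x.2 l * x.2 l := by
      have : dot x x = x.1 * x.1 - ∑ l, x.2 l * x.2 l := rfl
      rw [this, e1, h7]
      ring
    obtain ⟨k, hk⟩ : ∃ k, k = - dot x x := ⟨_, rfl⟩
    have hk0 : 0 < k := by linarith
    have e4 : k * ∑ l ∈ Tᶜ, x.2 l ≤ ∑ l ∈ Tᶜ, x.2 l * x.2 l := by
      rw [Finset.mul_sum]
      refine Finset.sum_le_sum fun l _ => ?_
      obtain ⟨g1, g2⟩ := gap_mult hP hx l
      by_cases h : x.2 l = 0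
      · rw [h]
        simp
      · have := g2 h
        rw [← hk] at this
        exact mul_le_mul_of_nonneg_right this g1
    have e5 : k * ∑ l ∈ Tᶜ, x.2 l ≤ k * 1 := by
      rw [mul_one]
      linarith
    have e6 : ∑ l ∈ Tᶜ, x.2 l ≤ 1 := le_of_mul_le_mul_left e5 hk0
    obtain ⟨d, w, hxe, hI⟩ := hx
    have hip : ip d w d w = - k := by
      rw [hk, hxe, neg_neg]
      rfl
    have hkk : kk d w = - ∑ l ∈ Tᶜ, x.2 l := by
      have g1 : kk d w = 3 * x.1 - ∑ l, x.2 l := by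
        rw [hxe]
        rfl
      rw [g1, e2, h7]
      ring
    have h8 := (Pool.Agent.R355.CanDeg.main hP hI hip hk0 hkk).1
    linarith
  refine ⟨hpos, ?_⟩
  have hne : x ≠ tr (nine f) (0, fun l => (if l = f 1 then 1 else 0) - (if l = f 0 then 1 else 0)) x := by
    intro h
    rw [← h] at h4
    nlinarith
  have h5 := orb_pair hP hx h3 hne
  rw [h4] at h5
  linarith

theorem gap_nine_conj {r : ℕ} {P : Fin (r + 4) → Fin 2 → ℂ}
    (hP : AlgebraicIndependent ℚ (fun ij : Fin (r + 4) × Fin 2 => P ij.1 ij.2))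
    {x y : ℤ × (Fin (r + 4) → ℤ)} (hx : Orb P x) (hneg : dot x x < 0)
    {f : Fin 9 → Fin (r + 4)} (hf : Function.Injective f) (hy : Conj (nine f) y) :
    0 < dot x y ∧ - dot x x ≤ dot x y ^ 2 := by
  obtain ⟨z, hz, hz'⟩ := hy.symm.par x
  rw [dot_comm y x, dot_comm] at hz'
  have h1 := gap_nine hP (hx.conj hP hz) (by rw [conj_dot hz]; exact hneg) hf
  rw [hz', conj_dot hz] at h1
  exact h1

end Pool.Agent.T6.H98.WO
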