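import Pool.Agent.T6.H98.WO.Orb
import Pool.Agent.Chud.PD1

set_option autoImplicit false

/-!
# Effective classes, sums of irreducible curves and nef classes
-/

namespace Pool.Agent.T6.H98.WO

open MvPolynomial Pool.Agent.W609 Pool.Agent.W609.CR Pool.Agent.TH167 Pool.Agent.TH167.SH
open Pool.Agent.TH442.NF (cls refl Step refl_cls cls_inj NefAt)
open Pool.Agent.R355.NegOrb

variable {s : ℕ}

/-! ## Nef classes and effective classes (as in the starting library, `TH442/NF/Orbit.lean`) -/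

theorem ord_ex {K : Type} [Field K] {p : Fin 2 → K} {f : MvPolynomial (Fin 3) K} {d : ℕ}
    (hf0 : f ≠ 0) (hf : f.IsHomogeneous d) : ∃ m, Ord (aff p) m f := by
  classical
  by_contra hcon
  push Not at hcon
  have h : ∀ m, Van (aff p) m f := by
    intro m
    induction m with
    | zero => exact van_zero _ _
    | succ m ih =>
      by_contra h2
      exact hcon m ⟨ih, h2⟩
  have := van_le hf0 hf (h (d + 1))
  omega

theorem ip_add {s : ℕ} (a : ℕ) (v : Fin s → ℕ) (e1 e2 : ℕ) (u1 u2 : Fin s → ℕ) :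
    ip a v (e1 + e2) (fun j => u1 j + u2 j) = ip a v e1 u1 + ip a v e2 u2 := by
  unfold ip
  have h1 : ∀ j, (v j : ℤ) * ((u1 j + u2 j : ℕ) : ℤ) = (v j : ℤ) * u1 j + (v j : ℤ) * u2 j := by
    intro j
    push_cast
    ring
  rw [Finset.sum_congr rfl fun j _ => h1 j, Finset.sum_add_distrib]
  push_cast
  ring

theorem nef_eff {K : Type} [Field K] {s : ℕ} {P : Fin s → Fin 2 → K} {a : ℕ} {v : Fin s → ℕ}
    (h : NefAt P a v) (G : MvPolynomial (Fin 3) K) :
    G ≠ 0 → ∀ (d : ℕ) (u : Fin s → ℕ), G.IsHomogeneous d → (∀ j, Ord (aff (P j)) (u j) G) →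
      0 ≤ ip a v d u := by
  refine WfDvdMonoid.induction_on_irreducible G ?_ ?_ ?_
  · intro h0
    exact absurd rfl h0
  · intro g hg h0 d u hd hu
    have h1 : g.totalDegree = 0 := (MvPolynomial.isUnit_iff_totalDegree_of_isReduced.1 hg).2
    have h2 : d = 0 := by rw [← hd.totalDegree h0, h1]
    have h3 : ∀ j, u j = 0 := by
      intro j
      by_contra hcon
      have h4 : Van (aff (P j)) 1 g := van_mono (by omega : 1 ≤ u j) (hu j).1
      rw [van_one] at h4
      have h5 := hg.map (MvPolynomial.eval (aff (P j)))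
      rw [h4] at h5
      exact not_isUnit_zero h5
    unfold ip
    rw [h2, Finset.sum_eq_zero fun j _ => by rw [h3 j]; simp]
    simp
  · intro g i hg0 hi ih hne d u hd hu
    have hi0 : i ≠ 0 := hi.ne_zero
    have c1 := Pool.Agent.Chud.homog_of_dvd hd hne (Dvd.intro _ rfl : i ∣ i * g)
    have c2 := Pool.Agent.Chud.homog_of_dvd hd hne (Dvd.intro_left _ rfl : g ∣ i * g)
    have c3 : d = i.totalDegree + g.totalDegree := by
      rw [← hd.totalDegree hne, MvPolynomial.totalDegree_mul_of_isDomain hi0 hg0]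
    choose u1 hu1 using fun j => ord_ex (p := P j) hi0 c1
    choose u2 hu2 using fun j => ord_ex (p := P j) hg0 c2
    have c4 : u = fun j => u1 j + u2 j := by
      funext j
      exact ord_unique (hu j) (ord_mul (hu1 j) (hu2 j))
    rw [c3, c4, ip_add]
    exact add_nonneg (h i _ u1 hi c1 hu1) (ih hg0 _ u2 c2 hu2)

/-- The class `(d; m)` is effective at the points `P`. -/
def Eff (P : Fin s → Fin 2 → ℂ) (d : ℕ) (m : Fin s → ℕ) : Prop :=
  ∃ F : MvPolynomial (Fin 3) ℂ, F ≠ 0 ∧ F.IsHomogeneous d ∧ ∀ j, Van (aff (P j)) (m j) F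

/-- Nef classes and effective classes. -/
theorem Eff.nonneg {P : Fin s → Fin 2 → ℂ} {d : ℕ} {m : Fin s → ℕ} (hD : Eff P d m) {a : ℕ}
    {v : Fin s → ℕ} (h : NefAt P a v) : 0 ≤ ip a v d m := by
  obtain ⟨F, hF0, hF, hv⟩ := hD
  choose u hu using fun j => ord_ex (p := P j) hF0 hF
  have h1 := nef_eff h F hF0 d u hF hu
  have h2 : ∀ j, m j ≤ u j := by
    intro j
    have e1 := (van_iff _ _ _).1 (hv j)
    rw [(ord_iff _ _ _).1 (hu j)] at e1
    exact_mod_cast e1
  have h3 : ip a v d u ≤ ip a v d m := by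
    unfold ip
    have : ∑ j, (v j : ℤ) * (m j : ℤ) ≤ ∑ j, (v j : ℤ) * (u j : ℤ) := by
      refine Finset.sum_le_sum fun j _ => ?_
      exact mul_le_mul_of_nonneg_left (by exact_mod_cast h2 j) (Nat.cast_nonneg _)
    omega
  omega

/-! ## Sums of irreducible curves -/

/-- The class of an irreducible curve. -/
def Cur (P : Fin s → Fin 2 → ℂ) (x : ℤ × (Fin s → ℤ)) : Prop :=
  ∃ (e : ℕ) (u : Fin s → ℕ) (G : MvPolynomial (Fin 3) ℂ), x = cls e u ∧ Irreducible G ∧
    G.IsHomogeneous e ∧ ∀ j, Ord (aff (P j)) (u j) G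

theorem Orb.cur {P : Fin s → Fin 2 → ℂ} {x : ℤ × (Fin s → ℤ)} (h : Orb P x) : Cur P x := by
  obtain ⟨e, u, h1, h2⟩ := h
  obtain ⟨G, h3, h4, h5⟩ := h2.ex
  exact ⟨e, u, G, h1, h3, h4, h5⟩

theorem cur_pair {P : Fin s → Fin 2 → ℂ} (hP : Function.Injective P)
    {x y : ℤ × (Fin s → ℤ)} (hx : Cur P x) (hy : Cur P y) (hne : x ≠ y) : 0 ≤ dot x y := by
  obtain ⟨d, w, C, rfl, c1, c2, c3⟩ := hx
  obtain ⟨e, u, G, rfl, g1, g2, g3⟩ := hy
  refine R355.NegCount.ip_nonneg hP g1 g2 g3 c1 c2 c3 fun h => hne ?_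
  have h1 : d = e := congrArg Prod.fst h
  have h2 : w = u := congrArg Prod.snd h
  rw [h1, h2]

theorem dot_sum {ι : Type} (t : Finset ι) (y : ι → ℤ × (Fin s → ℤ)) (z : ℤ × (Fin s → ℤ)) :
    dot (∑ i ∈ t, y i) z = ∑ i ∈ t, dot (y i) z := by
  classical
  induction t using Finset.induction_on with
  | empty =>
    rw [Finset.sum_empty, Finset.sum_empty]
    simp [dot]
  | insert a t ha ih =>
    rw [Finset.sum_insert ha, Finset.sum_insert ha, ← ih]
    generalize ∑ i ∈ t, y i = w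
    have h1 : ∑ l, ((y a).2 l + w.2 l) * z.2 l = ∑ l, (y a).2 l * z.2 l + ∑ l, w.2 l * z.2 l := by
      rw [← Finset.sum_add_distrib]
      exact Finset.sum_congr rfl fun l _ => by ring
    show ((y a).1 + w.1) * z.1 - ∑ l, ((y a).2 l + w.2 l) * z.2 l =
      ((y a).1 * z.1 - ∑ l, (y a).2 l * z.2 l) + (w.1 * z.1 - ∑ l, w.2 l * z.2 l)
    rw [h1]
    ring

/-- A sum of classes of irreducible curves and of exceptional curves which meets all of them
nonnegatively is nonnegative on the effective classes. The exceptional curves are given by the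
numbers `c l`. -/
theorem sum_eff {P : Fin s → Fin 2 → ℂ} (hP : Function.Injective P) {ι : Type} (t : Finset ι)
    (y : ι → ℤ × (Fin s → ℤ)) (hy : ∀ i ∈ t, Cur P (y i)) (c : Fin s → ℕ)
    (h1 : ∀ l, 0 ≤ (∑ i ∈ t, y i).2 l - c l)
    (h2 : ∀ i ∈ t, 0 ≤ dot (∑ i ∈ t, y i) (y i) + ∑ l, (c l : ℤ) * (y i).2 l)
    {d : ℕ} {m : Fin s → ℕ} (hD : Eff P d m) :
    0 ≤ dot (∑ i ∈ t, y i) (cls d m) + ∑ l, (c l : ℤ) * m l := by
  classical
  obtain ⟨Y, hY⟩ : ∃ Y, Y = ∑ i ∈ t, y i := ⟨_, rfl⟩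
  rw [← hY] at h1 h2 ⊢
  have hdeg : 0 ≤ Y.1 := by
    rw [hY, Prod.fst_sum]
    refine Finset.sum_nonneg fun i hi => ?_
    obtain ⟨e, u, G, h, -⟩ := hy i hi
    rw [h]
    exact Int.natCast_nonneg e
  obtain ⟨a, ha⟩ := Int.eq_ofNat_of_zero_le hdeg
  choose v hv using fun l => Int.eq_ofNat_of_zero_le (h1 l)
  have key : ∀ (e : ℕ) (u : Fin s → ℕ), ip a v e u = dot Y (cls e u) + ∑ l, (c l : ℤ) * u l := by
    intro e u
    have e1 : ip a v e u = (a : ℤ) * e - ∑ l, (v l : ℤ) * u l := rfl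
    have e2 : dot Y (cls e u) = Y.1 * e - ∑ l, Y.2 l * (u l : ℤ) := rfl
    rw [e1, e2, ha]
    have e3 : ∑ l, (v l : ℤ) * u l = ∑ l, Y.2 l * (u l : ℤ) - ∑ l, (c l : ℤ) * u l := by
      rw [← Finset.sum_sub_distrib]
      refine Finset.sum_congr rfl fun l _ => ?_
      have := hv l
      have e4 : (v l : ℤ) = Y.2 l - c l := this.symm
      rw [e4]
      ring
    rw [e3]
    ring
  have hnef : NefAt P a v := by
    intro G e u g1 g2 g3
    rw [key]
    have hG : Cur P (cls e u) := ⟨e, u, G, rfl, g1, g2, g3⟩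
    by_cases h : ∃ i ∈ t, y i = cls e u
    · obtain ⟨i, hi, h3⟩ := h
      have h4 := h2 i hi
      rw [h3] at h4
      exact h4
    · push Not at h
      have h5 : 0 ≤ dot Y (cls e u) := by
        rw [hY, dot_sum]
        exact Finset.sum_nonneg fun i hi => cur_pair hP (hy i hi) hG (h i hi)
      have h6 : 0 ≤ ∑ l, (c l : ℤ) * u l := Finset.sum_nonneg fun l _ => by positivity
      linarith
  have h7 := hD.nonneg hnef
  rw [key] at h7
  exact h7

end Pool.Agent.T6.H98.WO
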