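import Pool.Agent.T6.H98.WO.Eff

set_option autoImplicit false
set_option linter.unusedSimpArgs false

/-!
# The irreducible curves which an effective class meets negatively
-/

namespace Pool.Agent.T6.H98.WO

open MvPolynomial Pool.Agent.W609 Pool.Agent.W609.CR Pool.Agent.TH167 Pool.Agent.TH167.SH
open Pool.Agent.TH442.NF (cls refl Step refl_cls cls_inj NefAt)
open Pool.Agent.R355.NegOrb

variable {s : ℕ} {P : Fin s → Fin 2 → ℂ} {d : ℕ} {m : Fin s → ℕ} {x : ℤ × (Fin s → ℤ)}

theorem fix_neg (hP : Function.Injective P) (hD : Eff P d m) (hx : Cur P x)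
    (hneg : dot x (cls d m) < 0) : dot x x < 0 := by
  by_contra hcon
  push Not at hcon
  obtain ⟨e, u, G, he, -⟩ := id hx
  have h := sum_eff hP (Finset.univ : Finset (Fin 1)) (fun _ => x) (fun _ _ => hx) 0
    (fun l => by
      simp only [Fin.sum_univ_one, Pi.zero_apply, Nat.cast_zero, sub_zero]
      rw [he]
      exact Int.natCast_nonneg _) (fun i _ => by simpa using hcon) hD
  simp at h
  omega

theorem fix_pt (hP : AlgebraicIndependent ℚ (fun ij : Fin s × Fin 2 => P ij.1 ij.2))
    (hD : Eff P d m) (hx : Orb P x) {i : Fin s} (hi : x.2 i ≠ 0) :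
    0 ≤ dot x (cls d m) + m i := by
  classical
  obtain ⟨g1, g2⟩ := gap_mult hP hx i
  have g3 := g2 hi
  have h := sum_eff (inj_of_alg hP) (Finset.univ : Finset (Fin 1)) (fun _ => x)
    (fun _ _ => hx.cur) (fun l => if l = i then 1 else 0)
    (fun l => by
      simp only [Fin.sum_univ_one]
      have g4 := (gap_mult hP hx l).1
      by_cases h1 : l = i
      · subst h1
        rw [if_pos rfl]
        push_cast
        omega
      · rw [if_neg h1]
        push_cast
        omega) (fun j _ => by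
      simp only [Fin.sum_univ_one]
      simp
      omega) hD
  simp at h
  exact h

theorem fix_two (hP : Function.Injective P) (hD : Eff P d m) {y : ℤ × (Fin s → ℤ)}
    (hx : Cur P x) (hy : Cur P y) (h1 : - dot x x ≤ dot x y) (h2 : - dot y y ≤ dot x y) :
    0 ≤ dot x (cls d m) + dot y (cls d m) := by
  have hc : ∀ z, Cur P z → ∀ l, 0 ≤ z.2 l := by
    rintro z ⟨e, u, G, rfl, -⟩ l
    exact Int.natCast_nonneg _
  have h := sum_eff hP (Finset.univ : Finset (Fin 2)) ![x, y] (fun i _ => by
    fin_cases i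
    · exact hx
    · exact hy) 0 (fun l => by
      rw [Fin.sum_univ_two]
      show (0 : ℤ) ≤ x.2 l + y.2 l - ((0 : ℕ) : ℤ)
      have g1 := hc x hx l
      have g2 := hc y hy l
      omega) (fun i _ => by
      rw [dot_sum, Fin.sum_univ_two]
      simp only [Pi.zero_apply, Nat.cast_zero, zero_mul, Finset.sum_const_zero, add_zero]
      fin_cases i
      · show 0 ≤ dot x x + dot y x
        rw [dot_comm y x]
        omega
      · show 0 ≤ dot x y + dot y y
        omega) hD
  rw [dot_sum, Fin.sum_univ_two] at h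
  simpa using h

theorem fix_root_gen (hP : AlgebraicIndependent ℚ (fun ij : Fin s × Fin 2 => P ij.1 ij.2))
    (hD : Eff P d m) (hx : Orb P x) {a : ℤ × (Fin s → ℤ)} (ha : Root a)
    (h : 2 * (- dot x x) ≤ dot x a ^ 2) : -(2 * dot x (cls d m)) ≤ dot x a * dot a (cls d m) := by
  have h1 := fix_two (inj_of_alg hP) hD hx.cur (hx.sr hP ha).cur
    (by rw [dot_sr]; nlinarith) (by rw [dot_sr_sr ha.sq, dot_sr]; nlinarith)
  rw [sr_dot] at h1
  linarith

theorem fix_root (hP : AlgebraicIndependent ℚ (fun ij : Fin s × Fin 2 => P ij.1 ij.2))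
    (hD : Eff P d m) (hx : Orb P x) (hneg : dot x (cls d m) < 0) {a : ℤ × (Fin s → ℤ)}
    (ha : Root a) (haD : dot a (cls d m) = 0) : dot x a ^ 2 < 2 * (- dot x x) := by
  by_contra hcon
  push Not at hcon
  have h1 := fix_two (inj_of_alg hP) hD hx.cur (hx.sr hP ha).cur
    (by rw [dot_sr]; nlinarith) (by rw [dot_sr_sr ha.sq, dot_sr]; nlinarith)
  rw [sr_dot, haD] at h1
  omega

theorem fix_orth (hP : AlgebraicIndependent ℚ (fun ij : Fin s × Fin 2 => P ij.1 ij.2))
    (hD : Eff P d m) (hx : Orb P x) (hneg : dot x (cls d m) < 0) {a b : ℤ × (Fin s → ℤ)}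
    (ha : Root a) (haD : dot a (cls d m) = 0) (hb : Root b) (hbD : dot b (cls d m) = 0)
    (hab : dot a b = 0) : dot x a = 0 ∨ dot x b = 0 := by
  by_contra hcon
  push Not at hcon
  obtain ⟨h1, h2⟩ := hcon
  have g1 := gap_root hP hx ha h1
  have g2 := gap_root hP hx hb h2
  have hba : dot b a = 0 := by rw [dot_comm]; exact hab
  have hc : ∀ z, Orb P z → ∀ l, 0 ≤ z.2 l := by
    rintro z ⟨e, u, rfl, -⟩ l
    exact Int.natCast_nonneg _
  have hxa := hx.sr hP ha
  have hxb := hx.sr hP hb
  have hxab := hxa.sr hP hb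
  have h := sum_eff (inj_of_alg hP) (Finset.univ : Finset (Fin 4))
    ![x, sr a x, sr b x, sr b (sr a x)] (fun i _ => by
    fin_cases i
    · exact hx.cur
    · exact hxa.cur
    · exact hxb.cur
    · exact hxab.cur) 0 (fun l => by
      rw [Fin.sum_univ_four]
      show (0 : ℤ) ≤ x.2 l + (sr a x).2 l + (sr b x).2 l + (sr b (sr a x)).2 l - ((0 : ℕ) : ℤ)
      have k1 := hc x hx l
      have k2 := hc _ hxa l
      have k3 := hc _ hxb l
      have k4 := hc _ hxab l
      omega) (fun i _ => by
      rw [dot_sum, Fin.sum_univ_four]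
      simp only [Pi.zero_apply, Nat.cast_zero, zero_mul, Finset.sum_const_zero, add_zero]
      fin_cases i
      · show 0 ≤ dot x x + dot (sr a x) x + dot (sr b x) x + dot (sr b (sr a x)) x
        simp only [sr_dot, hab, hba, ha.sq, hb.sq, dot_comm a x, dot_comm b x]
        nlinarith
      · show 0 ≤ dot x (sr a x) + dot (sr a x) (sr a x) + dot (sr b x) (sr a x) +
          dot (sr b (sr a x)) (sr a x)
        simp only [sr_dot, dot_sr, hab, hba, ha.sq, hb.sq, dot_comm a x, dot_comm b x]
        nlinarith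
      · show 0 ≤ dot x (sr b x) + dot (sr a x) (sr b x) + dot (sr b x) (sr b x) +
          dot (sr b (sr a x)) (sr b x)
        simp only [sr_dot, dot_sr, hab, hba, ha.sq, hb.sq, dot_comm a x, dot_comm b x]
        nlinarith
      · show 0 ≤ dot x (sr b (sr a x)) + dot (sr a x) (sr b (sr a x)) +
          dot (sr b x) (sr b (sr a x)) + dot (sr b (sr a x)) (sr b (sr a x))
        simp only [sr_dot, dot_sr, hab, hba, ha.sq, hb.sq, dot_comm a x, dot_comm b x]
        nlinarith) hD
  rw [dot_sum, Fin.sum_univ_four] at h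
  simp only [Pi.zero_apply, Nat.cast_zero, zero_mul, Finset.sum_const_zero, add_zero] at h
  have h' : 0 ≤ dot x (cls d m) + dot (sr a x) (cls d m) + dot (sr b x) (cls d m) +
      dot (sr b (sr a x)) (cls d m) := h
  simp only [sr_dot, haD, hbD] at h'
  omega

theorem fix_tri (hP : AlgebraicIndependent ℚ (fun ij : Fin s × Fin 2 => P ij.1 ij.2))
    (hD : Eff P d m) (hx : Orb P x) (hneg : dot x (cls d m) < 0) {a b : ℤ × (Fin s → ℤ)}
    (ha : Root a) (haD : dot a (cls d m) = 0) (hb : Root b) (hbD : dot b (cls d m) = 0)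
    (hab : dot a b = 1) : dot x a = 0 ∨ dot x b = 0 ∨ dot x a + dot x b = 0 := by
  by_contra hcon
  push Not at hcon
  obtain ⟨h1, h2, h3⟩ := hcon
  have g1 := gap_root hP hx ha h1
  have g2 := gap_root hP hx hb h2
  have hba : dot b a = 1 := by rw [dot_comm]; exact hab
  have g3 := gap_root hP hx (Root.sr ha hb) (by rw [dot_sr, hba]; omega)
  rw [dot_sr, hba] at g3
  have hc : ∀ z, Orb P z → ∀ l, 0 ≤ z.2 l := by
    rintro z ⟨e, u, rfl, -⟩ l
    exact Int.natCast_nonneg _
  have hxa := (hx.sr hP ha).sr hP hb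
  have hxb := (hx.sr hP hb).sr hP ha
  have h := sum_eff (inj_of_alg hP) (Finset.univ : Finset (Fin 3))
    ![x, sr b (sr a x), sr a (sr b x)] (fun i _ => by
    fin_cases i
    · exact hx.cur
    · exact hxa.cur
    · exact hxb.cur) 0 (fun l => by
      rw [Fin.sum_univ_three]
      show (0 : ℤ) ≤ x.2 l + (sr b (sr a x)).2 l + (sr a (sr b x)).2 l - ((0 : ℕ) : ℤ)
      have k1 := hc x hx l
      have k2 := hc _ hxa l
      have k3 := hc _ hxb l
      omega) (fun i _ => by
      rw [dot_sum, Fin.sum_univ_three]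
      simp only [Pi.zero_apply, Nat.cast_zero, zero_mul, Finset.sum_const_zero, add_zero]
      fin_cases i
      · show 0 ≤ dot x x + dot (sr b (sr a x)) x + dot (sr a (sr b x)) x
        simp only [sr_dot, hab, hba, ha.sq, hb.sq, dot_comm a x, dot_comm b x]
        nlinarith
      · show 0 ≤ dot x (sr b (sr a x)) + dot (sr b (sr a x)) (sr b (sr a x)) +
          dot (sr a (sr b x)) (sr b (sr a x))
        simp only [sr_dot, dot_sr, hab, hba, ha.sq, hb.sq, dot_comm a x, dot_comm b x]
        nlinarith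
      · show 0 ≤ dot x (sr a (sr b x)) + dot (sr b (sr a x)) (sr a (sr b x)) +
          dot (sr a (sr b x)) (sr a (sr b x))
        simp only [sr_dot, dot_sr, hab, hba, ha.sq, hb.sq, dot_comm a x, dot_comm b x]
        nlinarith) hD
  rw [dot_sum, Fin.sum_univ_three] at h
  simp only [Pi.zero_apply, Nat.cast_zero, zero_mul, Finset.sum_const_zero, add_zero] at h
  have h' : 0 ≤ dot x (cls d m) + dot (sr b (sr a x)) (cls d m) +
      dot (sr a (sr b x)) (cls d m) := h
  simp only [sr_dot, haD, hbD] at h'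
  omega

end Pool.Agent.T6.H98.WO
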