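import Mathlib

set_option autoImplicit false

/-!
# The lattice of the blown up plane: reflections in real roots

A vector `a : ℤ × (Fin s → ℤ)` stands for the class `a.1 H - ∑ a.2 l E_l`.
-/

namespace Pool.Agent.T6.H98.WO

/-- The intersection number of the classes `a.1 H - ∑ a.2 l E_l` and `b.1 H - ∑ b.2 l E_l`. -/
def dot {s : ℕ} (a b : ℤ × (Fin s → ℤ)) : ℤ := a.1 * b.1 - ∑ l, a.2 l * b.2 l

/-- The reflection `x ↦ x + (x · a) a`. -/
def sr {s : ℕ} (a x : ℤ × (Fin s → ℤ)) : ℤ × (Fin s → ℤ) :=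
  (x.1 + dot x a * a.1, fun l => x.2 l + dot x a * a.2 l)

/-- The real roots: the classes `E_i - E_j` and `H - E_i - E_j - E_k`, and all the classes obtained
from them by reflections in real roots. -/
inductive Root {s : ℕ} : ℤ × (Fin s → ℤ) → Prop
  | pt {i j : Fin s} (h : i ≠ j) :
      Root (0, fun l => (if l = j then 1 else 0) - (if l = i then 1 else 0))
  | ln {i j k : Fin s} (hij : i ≠ j) (hik : i ≠ k) (hjk : j ≠ k) :
      Root (1, fun l => if l = i ∨ l = j ∨ l = k then 1 else 0)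
  | sr {a b : ℤ × (Fin s → ℤ)} : Root a → Root b → Root (sr a b)

variable {s : ℕ}

theorem dot_comm (a b : ℤ × (Fin s → ℤ)) : dot a b = dot b a := by
  unfold dot
  rw [mul_comm a.1, Finset.sum_congr rfl fun l _ => mul_comm (a.2 l) (b.2 l)]

theorem dot_sr (y x a : ℤ × (Fin s → ℤ)) : dot y (sr a x) = dot y x + dot x a * dot y a := by
  have h1 : ∑ l, y.2 l * (x.2 l + dot x a * a.2 l) =
      ∑ l, y.2 l * x.2 l + dot x a * ∑ l, y.2 l * a.2 l := by
    rw [Finset.mul_sum, ← Finset.sum_add_distrib]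
    exact Finset.sum_congr rfl fun l _ => by ring
  have h2 : dot y (sr a x) = y.1 * (x.1 + dot x a * a.1) -
      ∑ l, y.2 l * (x.2 l + dot x a * a.2 l) := rfl
  have h3 : dot y x = y.1 * x.1 - ∑ l, y.2 l * x.2 l := rfl
  have h4 : dot y a = y.1 * a.1 - ∑ l, y.2 l * a.2 l := rfl
  rw [h2, h1, h3, h4]
  ring

theorem sr_dot (y x a : ℤ × (Fin s → ℤ)) : dot (sr a x) y = dot x y + dot x a * dot a y := by
  rw [dot_comm, dot_sr, dot_comm y x, dot_comm y a]

theorem dot_sr_sr {a : ℤ × (Fin s → ℤ)} (ha : dot a a = -2) (x y : ℤ × (Fin s → ℤ)) :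
    dot (sr a x) (sr a y) = dot x y := by
  rw [dot_sr, sr_dot, sr_dot, ha, dot_comm a y]
  ring

theorem sr_sr {a : ℤ × (Fin s → ℤ)} (ha : dot a a = -2) (x : ℤ × (Fin s → ℤ)) :
    sr a (sr a x) = x := by
  have h : dot (sr a x) a = - dot x a := by
    rw [sr_dot, ha]
    ring
  refine Prod.ext ?_ (funext fun l => ?_)
  · show (sr a x).1 + dot (sr a x) a * a.1 = x.1
    rw [h]
    show x.1 + dot x a * a.1 + -dot x a * a.1 = x.1
    ring
  · show (sr a x).2 l + dot (sr a x) a * a.2 l = x.2 l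
    rw [h]
    show x.2 l + dot x a * a.2 l + -dot x a * a.2 l = x.2 l
    ring

/-- `s_{s_a b} = s_a s_b s_a`. -/
theorem sr_conj {a : ℤ × (Fin s → ℤ)} (ha : dot a a = -2) (b x : ℤ × (Fin s → ℤ)) :
    sr (sr a b) x = sr a (sr b (sr a x)) := by
  have h1 : dot x (sr a b) = dot x b + dot b a * dot x a := dot_sr _ _ _
  have h2 : dot (sr a x) b = dot x b + dot x a * dot a b := sr_dot _ _ _
  have h3 : dot (sr b (sr a x)) a = dot (sr a x) a + dot (sr a x) b * dot b a := sr_dot _ _ _
  have h4 : dot (sr a x) a = - dot x a := by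
    rw [sr_dot, ha]
    ring
  have h5 : dot a b = dot b a := dot_comm _ _
  refine Prod.ext ?_ (funext fun l => ?_)
  · show x.1 + dot x (sr a b) * (b.1 + dot b a * a.1) =
      (x.1 + dot x a * a.1) + dot (sr a x) b * b.1 + dot (sr b (sr a x)) a * a.1
    rw [h3, h4, h1, h2, h5]
    ring
  · show x.2 l + dot x (sr a b) * (b.2 l + dot b a * a.2 l) =
      (x.2 l + dot x a * a.2 l) + dot (sr a x) b * b.2 l + dot (sr b (sr a x)) a * a.2 l
    rw [h3, h4, h1, h2, h5]
    ring

theorem dot_pt {i j : Fin s} (x : ℤ × (Fin s → ℤ)) :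
    dot x (0, fun l => (if l = j then 1 else 0) - (if l = i then 1 else 0)) = x.2 i - x.2 j := by
  have h1 : ∀ l, x.2 l * ((if l = j then 1 else 0) - (if l = i then 1 else 0)) =
      (if l = j then x.2 l else 0) - (if l = i then x.2 l else 0) := by
    intro l
    split_ifs <;> ring
  show x.1 * 0 - ∑ l, x.2 l * ((if l = j then 1 else 0) - (if l = i then 1 else 0)) = _
  rw [Finset.sum_congr rfl fun l _ => h1 l, Finset.sum_sub_distrib,
    Finset.sum_ite_eq' Finset.univ j, Finset.sum_ite_eq' Finset.univ i,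
    if_pos (Finset.mem_univ _), if_pos (Finset.mem_univ _)]
  ring

theorem sum_ite3 {i j k : Fin s} (hij : i ≠ j) (hik : i ≠ k) (hjk : j ≠ k) (f : Fin s → ℤ) :
    ∑ l, f l * (if l = i ∨ l = j ∨ l = k then 1 else 0) = f i + f j + f k := by
  classical
  have h1 : ∀ l, f l * (if l = i ∨ l = j ∨ l = k then (1 : ℤ) else 0) =
      (if l = i then f l else 0) + (if l = j then f l else 0) + (if l = k then f l else 0) := by
    intro l
    by_cases h1 : l = i
    · subst h1
      simp [hij, hik]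
    · by_cases h2 : l = j
      · subst h2
        simp [h1, hjk]
      · by_cases h3 : l = k
        · subst h3
          simp [h1, h2]
        · simp [h1, h2, h3]
  rw [Finset.sum_congr rfl fun l _ => h1 l, Finset.sum_add_distrib, Finset.sum_add_distrib,
    Finset.sum_ite_eq' Finset.univ i, Finset.sum_ite_eq' Finset.univ j,
    Finset.sum_ite_eq' Finset.univ k]
  simp

theorem dot_ln {i j k : Fin s} (hij : i ≠ j) (hik : i ≠ k) (hjk : j ≠ k) (x : ℤ × (Fin s → ℤ)) :
    dot x (1, fun l => if l = i ∨ l = j ∨ l = k then 1 else 0) =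
      x.1 - x.2 i - x.2 j - x.2 k := by
  show x.1 * 1 - ∑ l, x.2 l * (if l = i ∨ l = j ∨ l = k then 1 else 0) = _
  rw [sum_ite3 hij hik hjk]
  ring

theorem Root.sq {a : ℤ × (Fin s → ℤ)} (h : Root a) : dot a a = -2 := by
  induction h with
  | @pt i j h =>
    rw [dot_pt]
    simp [h, h.symm]
  | @ln i j k hij hik hjk =>
    rw [dot_ln hij hik hjk]
    simp
  | sr _ _ h1 h2 => rw [dot_sr_sr h1, h2]

theorem sr_pt {i j : Fin s} (x : ℤ × (Fin s → ℤ)) :
    sr (0, fun l => (if l = j then 1 else 0) - (if l = i then 1 else 0)) x =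
      (x.1, fun l => x.2 (Equiv.swap i j l)) := by
  refine Prod.ext ?_ (funext fun l => ?_)
  · show x.1 + dot x _ * 0 = x.1
    ring
  · show x.2 l + dot x _ * ((if l = j then 1 else 0) - (if l = i then 1 else 0)) =
      x.2 (Equiv.swap i j l)
    rw [dot_pt]
    by_cases h1 : l = i
    · subst h1
      rw [Equiv.swap_apply_left]
      by_cases h2 : l = j
      · subst h2
        simp
      · simp [h2]
    · by_cases h2 : l = j
      · subst h2
        rw [Equiv.swap_apply_right]
        simp [h1]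
      · rw [Equiv.swap_apply_of_ne_of_ne h1 h2]
        simp [h1, h2]

/-- Two classes are conjugate: finitely many reflections in real roots carry `x` to `y`. -/
def Conj (x y : ℤ × (Fin s → ℤ)) : Prop :=
  Relation.ReflTransGen (fun x y => ∃ a, Root a ∧ y = sr a x) x y

theorem Conj.symm {x y : ℤ × (Fin s → ℤ)} (h : Conj x y) : Conj y x := by
  unfold Conj at *
  induction h with
  | refl => exact Relation.ReflTransGen.refl
  | tail _ h2 ih =>
    obtain ⟨a, ha, rfl⟩ := h2
    exact (Relation.ReflTransGen.single ⟨a, ha, (sr_sr ha.sq _).symm⟩).trans ih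

/-- The chain, applied to another class. -/
theorem Conj.par {x y : ℤ × (Fin s → ℤ)} (h : Conj x y) (z : ℤ × (Fin s → ℤ)) :
    ∃ z', Conj z z' ∧ dot y z' = dot x z := by
  unfold Conj at *
  induction h with
  | refl => exact ⟨z, Relation.ReflTransGen.refl, rfl⟩
  | tail _ h2 ih =>
    obtain ⟨z1, h3, h4⟩ := ih
    obtain ⟨a, ha, rfl⟩ := h2
    refine ⟨sr a z1, h3.tail ⟨a, ha, rfl⟩, ?_⟩
    rw [dot_sr_sr ha.sq, h4]

end Pool.Agent.T6.H98.WO
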