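import Pool.Agent.R355.NegOrb
import Pool.Agent.R355.NegCount
import Pool.Agent.T6.H98.WO.Lat

set_option autoImplicit false

/-!
# The Weyl group orbit of a negative curve, and the gaps of its intersection numbers
-/

namespace Pool.Agent.T6.H98.WO

open MvPolynomial Pool.Agent.W609 Pool.Agent.W609.CR Pool.Agent.TH167 Pool.Agent.TH167.SH
open Pool.Agent.TH442.NF (cls refl Step refl_cls cls_inj)
open Pool.Agent.R355.NegOrb

variable {s : ℕ}

theorem refl_eq {i : Fin 3 → Fin s} (hi : Function.Injective i) (x : ℤ × (Fin s → ℤ)) :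
    refl i x = sr (1, fun l => if l = i 0 ∨ l = i 1 ∨ l = i 2 then 1 else 0) x := by
  have h := dot_ln (ne10 hi).symm (ne20 hi).symm (ne21 hi).symm x
  refine Prod.ext ?_ (funext fun l => ?_)
  · rw [refl_fst]
    show x.1 + del i x = x.1 + dot x _ * 1
    rw [h]
    unfold del
    ring
  · rw [refl_snd]
    show _ = x.2 l + dot x _ * (if l = i 0 ∨ l = i 1 ∨ l = i 2 then 1 else 0)
    rw [h]
    unfold del ic
    rfl

/-- The class of an irreducible curve which is not a `(-1)`-curve. -/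
def Orb (P : Fin s → Fin 2 → ℂ) (x : ℤ × (Fin s → ℤ)) : Prop :=
  ∃ (e : ℕ) (u : Fin s → ℕ), x = cls e u ∧ Irr P e u

theorem Orb.nonneg {P : Fin s → Fin 2 → ℂ} {x : ℤ × (Fin s → ℤ)} (h : Orb P x) : 0 ≤ x.1 := by
  obtain ⟨e, u, rfl, -⟩ := h
  exact Int.natCast_nonneg e

theorem Orb.sr {P : Fin s → Fin 2 → ℂ}
    (hP : AlgebraicIndependent ℚ (fun ij : Fin s × Fin 2 => P ij.1 ij.2))
    {a : ℤ × (Fin s → ℤ)} (ha : Root a) :
    ∀ {x : ℤ × (Fin s → ℤ)}, Orb P x → Orb P (sr a x) := by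
  induction ha with
  | @pt i j h =>
    rintro x ⟨e, u, rfl, hI⟩
    obtain ⟨G, h1, h2, h3⟩ := hI.ex
    obtain ⟨G', b1, b2, b3⟩ := exists_conj hP hP h1 h2 h3 (Equiv.swap i j)
    refine ⟨e, fun l => u (Equiv.swap i j l), ?_, ⟨⟨G', b1, b2, b3⟩, ?_⟩⟩
    · rw [sr_pt]
      rfl
    · have e1 : ip e (fun l => u (Equiv.swap i j l)) e (fun l => u (Equiv.swap i j l)) =
          ip e u e u := by
        unfold ip
        rw [Equiv.sum_comp (Equiv.swap i j) fun l => (u l : ℤ) * u l]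
      have e2 : kk e (fun l => u (Equiv.swap i j l)) = kk e u := by
        unfold kk
        rw [Equiv.sum_comp (Equiv.swap i j) fun l => (u l : ℤ)]
      rw [e1, e2]
      exact hI.ne
  | @ln i j k hij hik hjk =>
    rintro x ⟨e, u, rfl, hI⟩
    have hi : Function.Injective ![i, j, k] := inj_cons hij hik hjk
    have p := hI.ps hP hi
    refine ⟨_, _, ?_, hI.step hP hi⟩
    rw [← refl_cls hi p, refl_eq hi]
    rfl
  | @sr a b ha hb iha ihb =>
    intro x hx
    rw [sr_conj ha.sq]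
    exact iha (ihb (iha hx))

theorem Orb.conj {P : Fin s → Fin 2 → ℂ}
    (hP : AlgebraicIndependent ℚ (fun ij : Fin s × Fin 2 => P ij.1 ij.2))
    {x y : ℤ × (Fin s → ℤ)} (hx : Orb P x) (h : Conj x y) : Orb P y := by
  unfold Conj at h
  induction h with
  | refl => exact hx
  | tail _ h2 ih =>
    obtain ⟨a, ha, rfl⟩ := h2
    exact ih.sr hP ha

theorem conj_dot {x y : ℤ × (Fin s → ℤ)} (h : Conj x y) : dot y y = dot x x := by
  unfold Conj at h
  induction h with
  | refl => rfl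
  | tail _ h2 ih =>
    obtain ⟨a, ha, rfl⟩ := h2
    rw [dot_sr_sr ha.sq, ih]

theorem conj_of_ch {x y : ℤ × (Fin s → ℤ)} (h : Ch x y) : Conj x y := by
  unfold Ch at h
  unfold Conj
  induction h with
  | refl => exact Relation.ReflTransGen.refl
  | tail _ h2 ih =>
    obtain ⟨i, hi, rfl⟩ := h2
    exact ih.tail ⟨_, Root.ln (ne10 hi).symm (ne20 hi).symm (ne21 hi).symm, refl_eq hi _⟩

/-- Two irreducible curves of different classes. -/
theorem orb_pair {P : Fin s → Fin 2 → ℂ}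
    (hP : AlgebraicIndependent ℚ (fun ij : Fin s × Fin 2 => P ij.1 ij.2))
    {x y : ℤ × (Fin s → ℤ)} (hx : Orb P x) (hy : Orb P y) (hne : x ≠ y) : 0 ≤ dot x y := by
  obtain ⟨d, w, rfl, hI⟩ := hx
  obtain ⟨e, u, rfl, hJ⟩ := hy
  obtain ⟨C, c1, c2, c3⟩ := hI.ex
  obtain ⟨G, g1, g2, g3⟩ := hJ.ex
  refine R355.NegCount.ip_nonneg (inj_of_alg hP) g1 g2 g3 c1 c2 c3 fun h => hne ?_
  have h1 : d = e := congrArg Prod.fst h
  have h2 : w = u := congrArg Prod.snd h
  rw [h1, h2]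

/-- The intersection numbers with the real roots. -/
theorem gap_root {P : Fin s → Fin 2 → ℂ}
    (hP : AlgebraicIndependent ℚ (fun ij : Fin s × Fin 2 => P ij.1 ij.2))
    {x a : ℤ × (Fin s → ℤ)} (hx : Orb P x) (ha : Root a) (h0 : dot x a ≠ 0) :
    - dot x x ≤ dot x a ^ 2 := by
  have h1 : x ≠ sr a x := by
    intro h
    have h2 : dot (sr a x) a = - dot x a := by
      rw [sr_dot, ha.sq]
      ring
    rw [← h] at h2
    omega
  have h3 := orb_pair hP hx (hx.sr hP ha) h1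
  rw [dot_sr] at h3
  nlinarith

/-- The multiplicities. -/
theorem gap_mult {P : Fin s → Fin 2 → ℂ}
    (hP : AlgebraicIndependent ℚ (fun ij : Fin s × Fin 2 => P ij.1 ij.2))
    {x : ℤ × (Fin s → ℤ)} (hx : Orb P x) (i : Fin s) :
    0 ≤ x.2 i ∧ (x.2 i ≠ 0 → - dot x x ≤ x.2 i) := by
  obtain ⟨e, u, rfl, hI⟩ := hx
  obtain ⟨C, c1, c2, c3⟩ := hI.ex
  refine ⟨Int.natCast_nonneg _, fun h0 => ?_⟩
  have h1 : (cls e u).2 i = (u i : ℤ) := rfl
  rw [h1] at h0 ⊢
  have h2 := xu hP c1 c2 c3 (k := i) (by omega)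
  have h3 : dot (cls e u) (cls e u) = (e : ℤ) * e - ∑ l, (u l : ℤ) * u l := rfl
  have h4 : ((∑ l, u l ^ 2 : ℕ) : ℤ) = ∑ l, (u l : ℤ) * u l := by
    push_cast
    exact Finset.sum_congr rfl fun l _ => by ring
  have h5 : ((∑ l, u l ^ 2 : ℕ) : ℤ) ≤ ((e ^ 2 + u i : ℕ) : ℤ) := by exact_mod_cast h2
  rw [h4] at h5
  push_cast at h5
  rw [h3]
  nlinarith

/-- The class of the exceptional curve over the point `i`. -/
def exc (i : Fin s) : ℤ × (Fin s → ℤ) := (0, fun l => if l = i then -1 else 0)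

theorem dot_exc (x : ℤ × (Fin s → ℤ)) (i : Fin s) : dot x (exc i) = x.2 i := by
  have h1 : ∀ l, x.2 l * (if l = i then (-1 : ℤ) else 0) = if l = i then - x.2 l else 0 := by
    intro l
    split_ifs <;> ring
  show x.1 * 0 - ∑ l, x.2 l * (if l = i then (-1 : ℤ) else 0) = _
  rw [Finset.sum_congr rfl fun l _ => h1 l, Finset.sum_ite_eq' Finset.univ i,
    if_pos (Finset.mem_univ _)]
  ring

/-- The intersection numbers with the classes conjugate to an exceptional curve. -/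
theorem gap_conj {P : Fin s → Fin 2 → ℂ}
    (hP : AlgebraicIndependent ℚ (fun ij : Fin s × Fin 2 => P ij.1 ij.2))
    {x y : ℤ × (Fin s → ℤ)} (hx : Orb P x) {i : Fin s} (hy : Conj (exc i) y) :
    0 ≤ dot x y ∧ (dot x y ≠ 0 → - dot x x ≤ dot x y) := by
  obtain ⟨z, hz, hz'⟩ := hy.symm.par x
  rw [dot_comm y x, dot_comm, dot_exc] at hz'
  have h1 := gap_mult hP (hx.conj hP hz) i
  rw [hz', conj_dot hz] at h1
  exact h1

/-- The class of a `(-1)`-curve is conjugate to an exceptional curve. -/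
theorem conj_of_exc {r : ℕ} {P : Fin (r + 4) → Fin 2 → ℂ}
    (hP : AlgebraicIndependent ℚ (fun ij : Fin (r + 4) × Fin 2 => P ij.1 ij.2))
    {G : MvPolynomial (Fin 3) ℂ} {e : ℕ} {u : Fin (r + 4) → ℕ} (hG : Exc P G e u) :
    ∃ i, Conj (exc i) (cls e u) := by
  obtain ⟨i, j, hij, h⟩ := exc_chain e P hP G u hG
  obtain ⟨l, hl⟩ : ∃ l : Fin (r + 4), l ∉ ({i, j} : Finset (Fin (r + 4))) := by
    by_contra hcon
    push Not at hcon
    have h1 : (Finset.univ : Finset (Fin (r + 4))).card ≤ ({i, j} : Finset (Fin (r + 4))).card :=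
      Finset.card_le_card fun x _ => hcon x
    rw [Finset.card_univ, Fintype.card_fin] at h1
    have h2 := Finset.card_le_two (a := i) (b := j)
    omega
  simp only [Finset.mem_insert, Finset.mem_singleton, not_or] at hl
  have hil : i ≠ l := fun h => hl.1 h.symm
  have hjl : j ≠ l := fun h => hl.2 h.symm
  refine ⟨l, ?_⟩
  have h1 := (conj_of_ch h).symm
  refine Relation.ReflTransGen.head ⟨_, Root.ln hij hil hjl, ?_⟩ h1
  have h2 : dot (exc l) (1, fun m => if m = i ∨ m = j ∨ m = l then (1 : ℤ) else 0) = 1 := by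
    rw [dot_ln hij hil hjl]
    simp [exc, hil, hjl]
  refine Prod.ext ?_ (funext fun m => ?_)
  · show ((1 : ℕ) : ℤ) = 0 + dot (exc l) _ * 1
    rw [h2]
    simp
  · show (((if m = i ∨ m = j then 1 else 0 : ℕ)) : ℤ) =
      (if m = l then -1 else 0) + dot (exc l) _ * (if m = i ∨ m = j ∨ m = l then 1 else 0)
    rw [h2]
    by_cases h3 : m = l
    · subst h3
      simp [hl.1, hl.2]
    · by_cases h4 : m = i
      · subst h4
        simp [h3]
      · by_cases h5 : m = j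
        · subst h5
          simp [h3]
        · simp [h3, h4, h5]

end Pool.Agent.T6.H98.WO
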